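import Pool.Agent.Helper65.CS.Goals

/-!
# Project CS (MP_34c247_lc), packet STP: one step of the search
-/

namespace Pool.Agent.Helper42.CS

open Pool.Agent.Helper78.DT Pool.Agent.Helper51.ZP Pool.Agent.Helper65.CS
open scoped Classical

theorem exists_ge_av {Ω : Type*} [Fintype Ω] [Nonempty Ω] (F : Ω → ℝ) : ∃ w, av F ≤ F w := by
  by_contra h
  push Not at h
  have h1 : av F = av fun _ : Ω => av F := (av_const _).symm
  have h2 : ∑ w, F w < ∑ _w : Ω, av F :=
    Finset.sum_lt_sum_of_nonempty Finset.univ_nonempty fun w _ => h w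
  rw [Finset.sum_const, nsmul_eq_mul, Finset.card_univ] at h2
  have h3 : (0 : ℝ) < Fintype.card Ω := by exact_mod_cast Fintype.card_pos
  have h4 : (Fintype.card Ω : ℝ) * av F = ∑ w, F w := by
    unfold av
    field_simp
  linarith

theorem getD_bt {m : ℕ} (z : Fin m → ZMod 2) :
    (fun i => (List.ofFn fun i => z2b (z i)).getD i false) = bt z := by
  funext i
  unfold bt
  by_cases h : i < m
  · rw [dif_pos h, List.getD_eq_getElem _ _ (by simpa using h)]
    simp
  · rw [dif_neg h, List.getD_eq_default _ _ (by simpa using h)]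

theorem stp (hDSW : DswStmt) (hFOL : FolStmt) (hMIX : MixStmt) (hGEN : GenStmt) (hCHS : ChsStmt)
    (hASG : AsgStmt) (hOVX : OvxStmt) : StpStmt := by
  intro n f al b w u0 c1 N hW hCL hnd hlt hN hc1 hb hε
  set q := al.length / 2 ^ b with hq
  set ε : ℝ := (al.length : ℝ) / N with hεd
  have hN0 : (0 : ℝ) < N := by
    have : 0 < N := by omega
    exact_mod_cast this
  have hε0 : 0 ≤ ε := by positivity
  have hql : q ≤ al.length := Nat.div_le_self _ _
  have hbq : b * q ≤ al.length :=
    (Nat.mul_le_mul_right q (Nat.lt_two_pow_self (n := b)).le).trans (Nat.mul_div_le _ _)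
  obtain ⟨Ω, iF, iN, Z, hZ, hZg⟩ := hGEN N (b * q) hN
  obtain ⟨Ω', iF', iN', Z', hZ', hZg'⟩ := hGEN N q hN
  have hZε : Bias ε Z := fun a ha => (hZ a ha).trans (by
    rw [hεd]
    exact div_le_div_of_nonneg_right (by exact_mod_cast hbq) hN0.le)
  have hZε' : Bias ε Z' := fun a ha => (hZ' a ha).trans (by
    rw [hεd]
    exact div_le_div_of_nonneg_right (by exact_mod_cast hql) hN0.le)
  set S : Ω → Finset (Fin n) := fun ω => chs n al b (bt (Z ω)) with hS
  set g : ℝ := 2 / 2 ^ b with hg
  have hg0 : 0 ≤ g := by positivity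
  have hp0 : (0 : ℝ) < 1 / 2 ^ b := by positivity
  have hp1 : (1 : ℝ) / 2 ^ b ≤ 1 := by
    rw [div_le_one (by positivity)]
    exact one_le_pow₀ (by norm_num)
  have hgA : ∀ A : Finset (Fin n), A.card < c1 + u0 → pr (fun ω => A ⊆ S ω) ≤ g ^ A.card := by
    intro A hA
    rcases Nat.eq_zero_or_pos A.card with h0 | h0
    · rw [h0, pow_zero]
      exact pr_le_one _
    · have h1 := hCHS n b al Ω ε Z hε0 hZε hnd hlt A
      have h2 : ε ≤ (1 / 2 ^ b) ^ A.card :=
        hε.trans (pow_le_pow_of_le_one hp0.le hp1 hA.le)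
      have h3 : (2 : ℝ) ≤ 2 ^ A.card := by
        calc (2 : ℝ) = 2 ^ 1 := by norm_num
          _ ≤ 2 ^ A.card := pow_le_pow_right₀ (by norm_num) h0
      have h4 : g ^ A.card = 2 ^ A.card * (1 / 2 ^ b) ^ A.card := by
        rw [hg, ← mul_pow]; congr 1; ring
      have h5 : (0 : ℝ) < (1 / 2 ^ b) ^ A.card := by positivity
      calc pr (fun ω => A ⊆ S ω) ≤ (1 / 2 ^ b) ^ A.card + ε := h1
        _ ≤ 2 * (1 / 2 ^ b) ^ A.card := by linarith
        _ ≤ 2 ^ A.card * (1 / 2 ^ b) ^ A.card := mul_le_mul_of_nonneg_right h3 h5.le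
        _ = g ^ A.card := h4.symm
  have hD := hDSW (Fin n) Ω S f w u0 c1 g hg0 hW hCL hc1 hgA
  -- the probabilities
  set yy : Ω' → List Bool := fun ω' => List.ofFn fun i => z2b (Z' ω' i) with hyy
  set rr : Ω → List Bool := fun ω => List.ofFn fun i => z2b (Z ω i) with hrr
  have hSr : ∀ ω, (chs n al b fun i => (rr ω).getD i false) = S ω := by
    intro ω
    rw [hrr, hS]
    congr 1
    exact getD_bt _
  set Pw : Ω → Ω' → ℝ := fun ω ω' =>
    pr (fun x : Fin n → Bool => ev f (ovr (ex al b (rr ω) (yy ω')) x) = true) with hPw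
  have hstep : ∀ ω, pr (fun x : Fin n → Bool => ev f x = true) ≤
      (av fun ω' => Pw ω ω') + 2 ^ c1 * ε +
        pr (fun x : Fin n → Bool => c1 ≤ dep f (rs (S ω) x)) := by
    intro ω
    set Y : Ω' → Fin n → Bool := fun ω' => ovr (ex al b (rr ω) (yy ω')) fun _ => false with hY
    have hAI : AI (S ω) ε Y := by
      have := hASG n b al (rr ω) Ω' ε Z' hε0 hZε' hnd hlt
      rwa [hSr] at this
    have hx : ∀ x : Fin n → Bool,
        pr (fun y : Fin n → Bool => ev f (mx (rs (S ω) x) y) = true) ≤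
          pr (fun ω' => ev f (mx (rs (S ω) x) (Y ω')) = true) + 2 ^ c1 * ε +
            @ite ℝ (c1 ≤ dep f (rs (S ω) x)) (Classical.propDecidable _) 1 0 := by
      intro x
      have hn : 0 ≤ (2 : ℝ) ^ c1 * ε := by positivity
      by_cases hd : c1 ≤ dep f (rs (S ω) x)
      · rw [if_pos hd]
        have h1 := pr_le_one (fun y : Fin n → Bool => ev f (mx (rs (S ω) x) y) = true)
        have h2 := pr_nonneg (fun ω' => ev f (mx (rs (S ω) x) (Y ω')) = true)
        linarith
      · rw [if_neg hd]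
        have h1 := hFOL (Fin n) Ω' (S ω) ε Y f (rs (S ω) x) hε0 hCL (by
          intro v hv
          by_contra hvS
          unfold rs at hv
          rw [if_neg hvS] at hv
          exact absurd hv (by simp)) hAI
        have h2 : (2 : ℝ) ^ dep f (rs (S ω) x) * ε ≤ 2 ^ c1 * ε :=
          mul_le_mul_of_nonneg_right (pow_le_pow_right₀ (by norm_num) (by omega)) hε0
        have h3 := (abs_le.1 h1).1
        linarith
    have hav := av_mono hx
    rw [av_add, av_add] at hav
    have e1 : (av fun x : Fin n → Bool =>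
        pr (fun y : Fin n → Bool => ev f (mx (rs (S ω) x) y) = true)) =
          pr (fun x : Fin n → Bool => ev f x = true) := by
      have := hMIX (Fin n) (S ω)
        (fun x => @ite ℝ (ev f x = true) (Classical.propDecidable _) 1 0)
      exact this
    have e2 : (av fun x : Fin n → Bool =>
        pr (fun ω' => ev f (mx (rs (S ω) x) (Y ω')) = true)) = av fun ω' => Pw ω ω' := by
      unfold pr
      rw [av_comm]
      refine av_congr fun ω' => ?_
      rw [hPw]
      unfold pr
      refine av_congr fun x => ?_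
      have h1 : mx (rs (S ω) x) (Y ω') = ovr (ex al b (rr ω) (yy ω')) x := by
        rw [hOVX n b al (rr ω) (yy ω') x, hSr]
      beta_reduce
      rw [h1]
    have e3 : (av fun x : Fin n → Bool => (2 : ℝ) ^ c1 * ε) = 2 ^ c1 * ε := av_const _
    rw [e1, e2, e3] at hav
    exact hav
  have havω := av_mono hstep
  rw [av_add, av_add, av_const, av_const] at havω
  obtain ⟨ω, hω⟩ := exists_ge_av fun ω => av fun ω' => Pw ω ω'
  obtain ⟨ω', hω'⟩ := exists_ge_av fun ω' => Pw ω ω'
  refine ⟨rr ω, hZg ω, yy ω', hZg' ω', ?_⟩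
  have hfin : (av fun ω => av fun ω' => Pw ω ω') ≤
      pr (fun x : Fin n → Bool => ev f (ovr (ex al b (rr ω) (yy ω')) x) = true) := hω.trans hω'
  linarith

end Pool.Agent.Helper42.CS
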